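import Pool.Agent.Helper75.SatQ.Upper

/-!
# Saturation and semi-saturation of the square in the hypercube are asymptotically separated
-/

set_option autoImplicit false

namespace Pool.Agent.Results.MP_71830d_co.Separation

open Filter Pool.Agent.Helper75.SatQ

/-- The two numbers are minima over nonempty sets; for all large `n` we have
`ssat n ≤ (7/2) 2^n < (18/5) 2^n ≤ sat n`, and the limsup of `ssat n / 2^n` is strictly smaller
than the liminf of `sat n / 2^n` (in `[0, ∞]`). -/
theorem result :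
    (∀ n, (satSet n).Nonempty ∧ (semiSatSet n).Nonempty) ∧
    (∃ n₀ : ℕ, ∀ n : ℕ, n₀ ≤ n →
      ((ssat n : ℝ) ≤ 7 / 2 * 2 ^ n ∧ 18 / 5 * 2 ^ n ≤ (sat n : ℝ) ∧ ssat n < sat n)) ∧
    limsup (fun n : ℕ => (ssat n : ENNReal) / 2 ^ n) atTop <
      liminf (fun n : ℕ => (sat n : ENNReal) / 2 ^ n) atTop := by
  obtain ⟨n₀, h₀⟩ := sat_lower_bound
  refine ⟨fun n => ⟨satSet_nonempty n, semiSatSet_nonempty n⟩, ⟨max n₀ 3, ?_⟩, ?_⟩
  · intro n hn
    have h1 := ssat_upper n ((le_max_right _ _).trans hn)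
    have h2 := h₀ n ((le_max_left _ _).trans hn)
    refine ⟨h1, h2, ?_⟩
    have h3 : (0 : ℝ) < 2 ^ n := by positivity
    have h4 : (ssat n : ℝ) < (sat n : ℝ) := by linarith
    exact_mod_cast h4
  · have hconv : ∀ m n : ℕ, (m : ENNReal) / 2 ^ n = ENNReal.ofReal ((m : ℝ) / 2 ^ n) := by
      intro m n
      rw [ENNReal.ofReal_div_of_pos (by positivity), ENNReal.ofReal_natCast,
        ENNReal.ofReal_pow (by norm_num)]
      norm_num
    have hu : limsup (fun n : ℕ => (ssat n : ENNReal) / 2 ^ n) atTop ≤ ENNReal.ofReal (7 / 2) := by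
      refine limsup_le_of_le (h := ?_)
      filter_upwards [eventually_ge_atTop 3] with n hn
      rw [hconv]
      apply ENNReal.ofReal_le_ofReal
      rw [div_le_iff₀ (by positivity)]
      exact ssat_upper n hn
    have hl : ENNReal.ofReal (18 / 5) ≤ liminf (fun n : ℕ => (sat n : ENNReal) / 2 ^ n) atTop := by
      refine le_liminf_of_le (h := ?_)
      filter_upwards [eventually_ge_atTop n₀] with n hn
      rw [hconv]
      apply ENNReal.ofReal_le_ofReal
      rw [le_div_iff₀ (by positivity)]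
      exact h₀ n hn
    refine hu.trans_lt (lt_of_lt_of_le ?_ hl)
    exact (ENNReal.ofReal_lt_ofReal_iff (by norm_num)).2 (by norm_num)

end Pool.Agent.Results.MP_71830d_co.Separation
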